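import Pool.Agent.Lib.MP_0a5adf_nt.H26.Handin
import Pool.Agent.Lib.MP_edb5be_nt.PD.Iface3

/-!
MP_0a5adf_nt: the numbers `n` with `t(n) ≤ g(n) n` have the natural density of the set of the
numbers with a bounded trajectory, which is positive.
-/

set_option autoImplicit false

namespace Pool.Agent.Lib.MP_0a5adf_nt.H7

open Filter Pool.Agent.Lib.MP_0a5adf_nt.TP Pool.Agent.Lib.MP_edb5be_nt

/-- The accelerated 3x+1 map: `n / 2` for even `n` and `(3 n + 1) / 2` for odd `n`. -/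
def T (n : ℕ) : ℕ := if n % 2 = 0 then n / 2 else (3 * n + 1) / 2

theorem T_eq : T = TP.T true := by
  funext n
  unfold T TP.T
  simp

/-- The trajectory of `n` is bounded. -/
def Bdd (n : ℕ) : Prop := ∃ R : ℕ, ∀ k, T^[k] n ≤ R

theorem bdd_step (n : ℕ) : Bdd n ↔ Bdd (T n) := by
  constructor
  · rintro ⟨R, hR⟩
    exact ⟨R, fun k => by simpa [Function.iterate_succ_apply] using hR (k + 1)⟩
  · rintro ⟨R, hR⟩
    refine ⟨max n R, fun k => ?_⟩
    rcases k with _ | k
    · simp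
    · rw [Function.iterate_succ_apply]
      exact le_trans (hR k) (le_max_right _ _)

theorem bdd_iter (k n : ℕ) : Bdd n ↔ Bdd (T^[k] n) := by
  induction k generalizing n with
  | zero => simp
  | succ k ih => rw [Function.iterate_succ_apply, ← ih, bdd_step]

/-- The set of the integers with a bounded trajectory. -/
def S : Set ℤ := {x : ℤ | ∃ R : ℕ, ∀ k, |EX.Tc^[k] x| ≤ R}

theorem S_inv (x : ℤ) : x ∈ S ↔ EX.Tc x ∈ S := by
  constructor
  · rintro ⟨R, hR⟩
    exact ⟨R, fun k => by simpa [Function.iterate_succ_apply] using hR (k + 1)⟩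
  · rintro ⟨R, hR⟩
    refine ⟨max x.natAbs R, fun k => ?_⟩
    rcases k with _ | k
    · simp
    · rw [Function.iterate_succ_apply]
      exact le_trans (hR k) (by exact_mod_cast le_max_right _ _)

theorem Tc_cast (n : ℕ) : EX.Tc (n : ℤ) = ((T n : ℕ) : ℤ) := by
  unfold EX.Tc T
  rcases Nat.even_or_odd' n with ⟨m, rfl | rfl⟩
  · have h1 : ((2 * m : ℕ) : ℤ) % 2 = 0 := by omega
    have h2 : (2 * m) % 2 = 0 := by omega
    rw [if_pos h1, if_pos h2]
    omega
  · have h1 : ¬ ((2 * m + 1 : ℕ) : ℤ) % 2 = 0 := by omega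
    have h2 : ¬ (2 * m + 1) % 2 = 0 := by omega
    rw [if_neg h1, if_neg h2]
    omega

theorem Tc_iter (k n : ℕ) : EX.Tc^[k] (n : ℤ) = ((T^[k] n : ℕ) : ℤ) := by
  induction k generalizing n with
  | zero => rfl
  | succ k ih => rw [Function.iterate_succ_apply, Function.iterate_succ_apply, Tc_cast, ih]

theorem mem_S (n : ℕ) : (n : ℤ) ∈ S ↔ Bdd n := by
  unfold S Bdd
  simp only [Set.mem_ofPred_eq, Tc_iter]
  constructor
  · rintro ⟨R, hR⟩
    exact ⟨R, fun k => by
      have := hR k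
      rw [abs_of_nonneg (by positivity)] at this
      exact_mod_cast this⟩
  · rintro ⟨R, hR⟩
    exact ⟨R, fun k => by
      rw [abs_of_nonneg (by positivity)]
      exact_mod_cast hR k⟩

/-- Natural density of a set of natural numbers. -/
def Dn (P : ℕ → Prop) (D : ℝ) : Prop :=
  Tendsto (fun N : ℕ => ({n : ℕ | n < N ∧ P n}.ncard : ℝ) / N) atTop (nhds D)

theorem fin_lt (P : ℕ → Prop) (N : ℕ) : {n : ℕ | n < N ∧ P n}.Finite :=
  (Set.finite_Iio N).subset fun _ hn => hn.1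

/-- From the integers to the natural numbers. -/
theorem dn_of_dens {A : Set ℤ} {D : ℝ} (h : ND.HasDens true A D) :
    Dn (fun n => (n : ℤ) ∈ A) D := by
  have h1 : Tendsto (fun N : ℕ => ND.cnt true A (N : ℝ) / (N : ℝ)) atTop (nhds D) :=
    h.comp tendsto_natCast_atTop_atTop
  have key : ∀ N : ℕ, |(({n : ℕ | n < N ∧ (n : ℤ) ∈ A}.ncard : ℝ)) - ND.cnt true A (N : ℝ)| ≤ 1 := by
    intro N
    have e : ND.cnt true A (N : ℝ) = (({n : ℕ | (n : ℤ) ∈ A ∧ 1 ≤ n ∧ n ≤ N}.ncard : ℕ) : ℝ) := by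
      unfold ND.cnt
      congr 1
      have : {x : ℤ | x ∈ A ∧ 0 < sg true * x ∧ ((sg true * x : ℤ) : ℝ) ≤ (N : ℝ)} =
          (fun n : ℕ => (n : ℤ)) '' {n : ℕ | (n : ℤ) ∈ A ∧ 1 ≤ n ∧ n ≤ N} := by
        ext x
        simp only [sg, Set.mem_ofPred_eq, Set.mem_image, if_true, one_mul]
        constructor
        · rintro ⟨a, b, c⟩
          refine ⟨x.toNat, ⟨?_, ?_, ?_⟩, ?_⟩
          · rwa [Int.toNat_of_nonneg b.le]
          · omega
          · have : x ≤ (N : ℤ) := by exact_mod_cast c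
            omega
          · exact Int.toNat_of_nonneg b.le
        · rintro ⟨n, ⟨a, b, c⟩, rfl⟩
          refine ⟨a, by omega, ?_⟩
          exact_mod_cast c
      rw [this, Set.ncard_image_of_injective _ Nat.cast_injective]
    rw [e]
    have f1 : {n : ℕ | (n : ℤ) ∈ A ∧ 1 ≤ n ∧ n ≤ N}.Finite :=
      (Set.finite_Iic N).subset fun _ hn => hn.2.2
    have f2 : {n : ℕ | n < N ∧ (n : ℤ) ∈ A}.Finite := fin_lt _ N
    have a1 : {n : ℕ | n < N ∧ (n : ℤ) ∈ A} ⊆ {n : ℕ | (n : ℤ) ∈ A ∧ 1 ≤ n ∧ n ≤ N} ∪ {0} := by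
      rintro n ⟨hn, hA⟩
      rcases Nat.eq_zero_or_pos n with rfl | h0
      · right; rfl
      · left; exact ⟨hA, h0, hn.le⟩
    have a2 : {n : ℕ | (n : ℤ) ∈ A ∧ 1 ≤ n ∧ n ≤ N} ⊆ {n : ℕ | n < N ∧ (n : ℤ) ∈ A} ∪ {N} := by
      rintro n ⟨hA, h0, hn⟩
      rcases Nat.lt_or_ge n N with h | h
      · left; exact ⟨h, hA⟩
      · right; exact le_antisymm hn h
    have b1 := (Set.ncard_le_ncard a1 (f1.union (Set.finite_singleton 0))).trans
      (Set.ncard_union_le _ _)
    have b2 := (Set.ncard_le_ncard a2 (f2.union (Set.finite_singleton N))).trans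
      (Set.ncard_union_le _ _)
    rw [Set.ncard_singleton] at b1 b2
    rw [abs_le]
    constructor
    · have : (({n : ℕ | (n : ℤ) ∈ A ∧ 1 ≤ n ∧ n ≤ N}.ncard : ℕ) : ℝ) ≤
        (({n : ℕ | n < N ∧ (n : ℤ) ∈ A}.ncard : ℕ) : ℝ) + 1 := by exact_mod_cast b2
      linarith
    · have : (({n : ℕ | n < N ∧ (n : ℤ) ∈ A}.ncard : ℕ) : ℝ) ≤
        (({n : ℕ | (n : ℤ) ∈ A ∧ 1 ≤ n ∧ n ≤ N}.ncard : ℕ) : ℝ) + 1 := by exact_mod_cast b1
      linarith
  have h2 : Tendsto (fun N : ℕ => (({n : ℕ | n < N ∧ (n : ℤ) ∈ A}.ncard : ℝ) -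
      ND.cnt true A (N : ℝ)) / (N : ℝ)) atTop (nhds 0) := by
    refine squeeze_zero_norm (a := fun N : ℕ => 1 / (N : ℝ)) (fun N => ?_)
      tendsto_one_div_atTop_nhds_zero_nat
    rw [norm_div, Real.norm_eq_abs, Real.norm_eq_abs, Nat.abs_cast]
    exact div_le_div_of_nonneg_right (key N) (Nat.cast_nonneg N)
  have h3 := h2.add h1
  rw [zero_add] at h3
  refine h3.congr fun N => ?_
  ring

/-- A slowly growing function below `g` for which the excursions of the bounded trajectories starting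
below it stay below `n`. -/
theorem slow (g : ℕ → ℝ) (hg : Tendsto g atTop atTop) :
    ∃ h : ℕ → ℝ, Tendsto h atTop atTop ∧ ∀ᶠ n in atTop, h n ≤ g n ∧
      ∀ m : ℕ, (m : ℝ) < h n → Bdd m → ∀ k, T^[k] m ≤ n := by
  classical
  -- `E K` bounds the excursions of the bounded trajectories starting below `K`.
  have hE : ∀ K : ℕ, ∃ E : ℕ, ∀ m < K, Bdd m → ∀ k, T^[k] m ≤ E := by
    intro K
    induction K with
    | zero => exact ⟨0, fun m hm => absurd hm (Nat.not_lt_zero m)⟩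
    | succ K ih =>
      obtain ⟨E, hE⟩ := ih
      by_cases hb : Bdd K
      · obtain ⟨R, hR⟩ := hb
        refine ⟨max E R, fun m hm hbm k => ?_⟩
        rcases Nat.lt_succ_iff_lt_or_eq.1 hm with h | h
        · exact le_trans (hE m h hbm k) (le_max_left _ _)
        · rw [h]
          exact le_trans (hR k) (le_max_right _ _)
      · refine ⟨E, fun m hm hbm k => ?_⟩
        rcases Nat.lt_succ_iff_lt_or_eq.1 hm with h | h
        · exact hE m h hbm k
        · exact absurd (h ▸ hbm) hb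
  choose E hE using hE
  -- the largest `K ≤ n` with `E j ≤ n` and `j ≤ g n'` conditions
  have hev : ∀ K : ℕ, ∀ᶠ n : ℕ in atTop, E K ≤ n ∧ (K : ℝ) ≤ g n := fun K =>
    (eventually_ge_atTop (E K)).and (hg.eventually_ge_atTop (K : ℝ))
  choose a ha using fun K => eventually_atTop.1 (hev K)
  -- `b K` increasing beyond `a`
  let F : ℕ → ℕ := fun n => Nat.findGreatest (fun K => a K ≤ n) n
  refine ⟨fun n => (F n : ℝ), ?_, ?_⟩
  · refine tendsto_natCast_atTop_atTop.comp ?_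
    refine tendsto_atTop.2 fun K => ?_
    filter_upwards [eventually_ge_atTop (max K (a K))] with n hn
    exact Nat.le_findGreatest (le_trans (le_max_left _ _) hn) (le_trans (le_max_right _ _) hn)
  · filter_upwards [eventually_ge_atTop (a 0)] with n hn
    have h1 : a (F n) ≤ n :=
      Nat.findGreatest_spec (P := fun K => a K ≤ n) (Nat.zero_le n) hn
    have h2 := ha (F n) n h1
    refine ⟨h2.2, fun m hm hb k => ?_⟩
    exact le_trans (hE (F n) m (by exact_mod_cast hm) hb k) h2.1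

/-- The numbers with `t(n) ≤ g(n) n`. -/
def Low (g : ℕ → ℝ) (n : ℕ) : Prop := ∀ k, (T^[k] n : ℝ) ≤ g n * n

theorem low_bdd {g : ℕ → ℝ} {n : ℕ} (h : Low g n) : Bdd n :=
  ⟨⌊g n * n⌋₊, fun k => Nat.le_floor (h k)⟩

/-- Almost all numbers with a bounded trajectory satisfy `t(n) ≤ g(n) n`. -/
theorem dn_low (hF : FinalStatement true) {D : ℝ} (hD : Dn Bdd D) (g : ℕ → ℝ)
    (hg : Tendsto g atTop atTop) : Dn (Low g) D := by
  obtain ⟨h, h1, h2⟩ := slow g hg
  have h3 := H26.density hF h h1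
  obtain ⟨N₀, hN₀⟩ := eventually_atTop.1 (h2.and ((hg.eventually_ge_atTop 1).and
    (h1.eventually_ge_atTop 1)))
  -- `Bdd n` and falling imply `Low`
  have key : ∀ n, N₀ ≤ n → Bdd n → H26.Falls true n (h n) (h n) → Low g n := by
    intro n hn hb hfall k
    obtain ⟨⟨ha, hm⟩, hg1, hh1⟩ := hN₀ n hn
    obtain ⟨j, hj1, hj2⟩ := hfall
    rw [← T_eq] at hj1 hj2
    rcases Nat.lt_or_ge k j with hkj | hkj
    · refine (hj2 k hkj).le.trans ?_
      exact mul_le_mul_of_nonneg_right ha (Nat.cast_nonneg n)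
    · have e : T^[k] n = T^[k - j] (T^[j] n) := by
        rw [← Function.iterate_add_apply, Nat.sub_add_cancel hkj]
      have := hm (T^[j] n) hj1 ((bdd_iter j n).1 hb) (k - j)
      rw [← e] at this
      have h4 : (T^[k] n : ℝ) ≤ (n : ℝ) := by exact_mod_cast this
      nlinarith [Nat.cast_nonneg (α := ℝ) n]
  -- comparison of the counts
  have hcmp : ∀ N : ℕ, |({n : ℕ | n < N ∧ Low g n}.ncard : ℝ) -
      ({n : ℕ | n < N ∧ Bdd n}.ncard : ℝ)| ≤
      (N₀ : ℝ) + ({n : ℕ | n < N ∧ ¬ H26.Falls true n (h n) (h n)}.ncard : ℝ) := by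
    intro N
    have s1 : {n : ℕ | n < N ∧ Low g n} ⊆ {n : ℕ | n < N ∧ Bdd n} :=
      fun n hn => ⟨hn.1, low_bdd hn.2⟩
    have s2 : {n : ℕ | n < N ∧ Bdd n} ⊆ {n : ℕ | n < N ∧ Low g n} ∪
        (Set.Iio N₀ ∪ {n : ℕ | n < N ∧ ¬ H26.Falls true n (h n) (h n)}) := by
      rintro n ⟨hn, hb⟩
      by_cases h0 : n < N₀
      · right; left; exact h0
      · by_cases h4 : H26.Falls true n (h n) (h n)
        · left
          exact ⟨hn, key n (not_lt.1 h0) hb h4⟩
        · right; right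
          exact ⟨hn, h4⟩
    have c1 := Set.ncard_le_ncard s1 (fin_lt _ N)
    have c2 := (Set.ncard_le_ncard s2 ((fin_lt _ N).union ((Set.finite_Iio N₀).union
      (fin_lt _ N)))).trans (Set.ncard_union_le _ _)
    have c3 := Set.ncard_union_le (Set.Iio N₀) {n : ℕ | n < N ∧ ¬ H26.Falls true n (h n) (h n)}
    have c4 : (Set.Iio N₀).ncard = N₀ := by
      rw [← Finset.coe_Iio, Set.ncard_coe_finset, Nat.card_Iio]
    have d1 : ({n : ℕ | n < N ∧ Low g n}.ncard : ℝ) ≤ ({n : ℕ | n < N ∧ Bdd n}.ncard : ℝ) := by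
      exact_mod_cast c1
    have d2 : ({n : ℕ | n < N ∧ Bdd n}.ncard : ℝ) ≤ ({n : ℕ | n < N ∧ Low g n}.ncard : ℝ) +
        ((N₀ : ℝ) + ({n : ℕ | n < N ∧ ¬ H26.Falls true n (h n) (h n)}.ncard : ℝ)) := by
      have : {n : ℕ | n < N ∧ Bdd n}.ncard ≤ {n : ℕ | n < N ∧ Low g n}.ncard +
          (N₀ + {n : ℕ | n < N ∧ ¬ H26.Falls true n (h n) (h n)}.ncard) := by omega
      exact_mod_cast this
    rw [abs_sub_comm, abs_of_nonneg (by linarith)]
    linarith
  have h5 : Tendsto (fun N : ℕ => (({n : ℕ | n < N ∧ Low g n}.ncard : ℝ) -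
      ({n : ℕ | n < N ∧ Bdd n}.ncard : ℝ)) / (N : ℝ)) atTop (nhds 0) := by
    have h6 : Tendsto (fun N : ℕ => (N₀ : ℝ) / N +
        ({n : ℕ | n < N ∧ ¬ H26.Falls true n (h n) (h n)}.ncard : ℝ) / N) atTop (nhds (0 + 0)) :=
      (tendsto_const_div_atTop_nhds_zero_nat (N₀ : ℝ)).add h3
    rw [zero_add] at h6
    refine squeeze_zero_norm (fun N => ?_) h6
    rw [norm_div, Real.norm_eq_abs, Real.norm_eq_abs, Nat.abs_cast, ← add_div]
    exact div_le_div_of_nonneg_right (hcmp N) (Nat.cast_nonneg N)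
  have h6 := h5.add hD
  rw [zero_add] at h6
  refine h6.congr fun N => ?_
  ring

/-- **Theorem.** The numbers `n` with a bounded trajectory have a natural density `D > 0`; for
every `g → ∞` the numbers `n` with `t(n) ≤ g(n) n` have the same natural density `D`; and
`D = 1` if and only if every trajectory is bounded. -/
theorem posprop (hF : FinalStatement true) (hZ : ND.ZDenStatement) (hG : PD.GodStatement)
    (hA : PD.AllSStatement) :
    ∃ D c : ℝ, 0 < c ∧ 0 < D ∧ D ≤ 1 ∧ Dn Bdd D ∧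
      (∀ g : ℕ → ℝ, Tendsto g atTop atTop → Dn (Low g) D) ∧
      (∀ n : ℕ, 1 ≤ n → ¬ Bdd n → D ≤ 1 - c / n) ∧
      (D = 1 ↔ ∀ n, Bdd n) := by
  obtain ⟨C, hC, hZ⟩ := hZ
  obtain ⟨D, hD0, hD1, hD, -⟩ := hZ true 1 S le_rfl fun x _ => S_inv x
  obtain ⟨c, hc, hA⟩ := hA
  obtain ⟨cg, hcg, hG⟩ := hG
  have hDn : Dn Bdd D := by
    have := dn_of_dens hD
    unfold Dn at this ⊢
    simpa only [mem_S] using this
  -- positivity: the grand orbit of 1
  obtain ⟨D1, hD10, hD11, hD1d, -⟩ := hZ true 1 (PD.GO 1) le_rfl fun x _ => by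
    constructor
    · rintro ⟨j, k, h⟩
      refine ⟨j, k + 1, ?_⟩
      show EX.Tc^[j] (EX.Tc x) = _
      have e1 : EX.Tc^[j] (EX.Tc x) = EX.Tc (EX.Tc^[j] x) := by
        rw [← Function.iterate_succ_apply, Function.iterate_succ_apply']
      rw [e1, h, Function.iterate_succ_apply']
    · rintro ⟨j, k, h⟩
      refine ⟨j + 1, k, ?_⟩
      rw [Function.iterate_succ_apply]
      exact h
  have hpos : 0 < D1 := by
    have := hG true 1 D1 (by simp [sg]) hD1d
    refine lt_of_lt_of_le ?_ this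
    simp [hcg]
  have hsub : PD.GO 1 ⊆ S := by
    rintro x ⟨j, k, h⟩
    have h1 : ∀ (i : ℕ) (y : ℤ), y ∈ S ↔ EX.Tc^[i] y ∈ S := by
      intro i
      induction i with
      | zero => intro y; rfl
      | succ i ih => intro y; rw [Function.iterate_succ_apply, ← ih, S_inv]
    rw [h1 j, h, ← h1 k]
    have h2 : Bdd 1 := by
      refine ⟨2, fun k => ?_⟩
      have : T^[k] 1 = 1 ∨ T^[k] 1 = 2 := by
        induction k with
        | zero => left; rfl
        | succ k ih =>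
          rw [Function.iterate_succ_apply']
          rcases ih with h | h
          · right; rw [h]; rfl
          · left; rw [h]; rfl
      omega
    have := (mem_S 1).2 h2
    exact_mod_cast this
  have hle : D1 ≤ D := by
    refine le_of_tendsto_of_tendsto hD1d hD ?_
    filter_upwards [eventually_ge_atTop 0] with X hX
    refine div_le_div_of_nonneg_right ?_ hX
    unfold ND.cnt
    have hfin : {x : ℤ | x ∈ S ∧ 0 < sg true * x ∧ ((sg true * x : ℤ) : ℝ) ≤ X}.Finite := by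
      apply (Set.finite_Icc 0 ⌊X⌋).subset
      rintro x ⟨-, hx0, hx⟩
      simp only [sg, if_true, one_mul] at hx0 hx
      exact ⟨hx0.le, Int.le_floor.2 hx⟩
    have hss : {x : ℤ | x ∈ PD.GO 1 ∧ 0 < sg true * x ∧ ((sg true * x : ℤ) : ℝ) ≤ X} ⊆
        {x : ℤ | x ∈ S ∧ 0 < sg true * x ∧ ((sg true * x : ℤ) : ℝ) ≤ X} :=
      fun x hx => ⟨hsub hx.1, hx.2⟩
    exact_mod_cast Set.ncard_le_ncard hss hfin
  have hgap : ∀ n : ℕ, 1 ≤ n → ¬ Bdd n → D ≤ 1 - c / n := by
    intro n hn hb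
    have := hA true S D (n : ℤ) S_inv hD (by simp only [sg, if_true, one_mul]; omega)
      (fun h => hb ((mem_S n).1 h))
    have e : |(((n : ℕ) : ℤ) : ℝ)| = (n : ℝ) := by
      rw [Int.cast_natCast, abs_of_nonneg (Nat.cast_nonneg n)]
    rwa [e] at this
  refine ⟨D, c, hc, lt_of_lt_of_le hpos hle, hD1, hDn, fun g hg => dn_low hF hDn g hg, hgap, ?_, ?_⟩
  · intro h1 n
    by_contra hb
    rcases Nat.eq_zero_or_pos n with rfl | hn
    · apply hb
      refine ⟨0, fun k => ?_⟩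
      have : T^[k] 0 = 0 := by
        induction k with
        | zero => rfl
        | succ k ih => rw [Function.iterate_succ_apply', ih]; rfl
      omega
    · have := hgap n hn hb
      have h2 : 0 < c / (n : ℝ) := div_pos hc (by exact_mod_cast hn)
      linarith
  · intro h
    have h1 : Dn Bdd 1 := by
      unfold Dn
      have e : ∀ N : ℕ, ({n : ℕ | n < N ∧ Bdd n}.ncard : ℝ) = (N : ℝ) := by
        intro N
        have : {n : ℕ | n < N ∧ Bdd n} = ((Finset.range N : Finset ℕ) : Set ℕ) := by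
          ext n
          simp [h n]
        rw [this, Set.ncard_coe_finset, Finset.card_range]
      refine Tendsto.congr' ?_ tendsto_const_nhds
      filter_upwards [eventually_gt_atTop 0] with N hN
      rw [e N, div_self]
      have : (0 : ℝ) < N := by exact_mod_cast hN
      exact this.ne'
    exact tendsto_nhds_unique hDn h1

end Pool.Agent.Lib.MP_0a5adf_nt.H7
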