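import Pool.Agent.Lib.MP_0a5adf_nt.XT.Nd
import Pool.Agent.Lib.MP_edb5be_nt.EQ.Equi
import Pool.Agent.Lib.MP_0a5adf_nt.H7.PosProp

/-!
MP_0a5adf_nt: the limit law of the excursions on a set that is equidistributed modulo the powers
of two.
-/

set_option autoImplicit false

namespace Pool.Agent.Lib.MP_0a5adf_nt.H7

open Finset Filter Topology Pool.Agent.Lib.MP_edb5be_nt Pool.Agent.Lib.MP_edb5be_nt.EQ
open Pool.Agent.Lib.MP_0a5adf_nt.XT (High odds walk F FallsBefore)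

theorem ct_card (B : Set ℕ) (Q : ℕ → Prop) [DecidablePred Q] (h : ∀ n, n ∈ B ↔ Q n) (X : ℝ) :
    ct B X = (((Icc 1 ⌊X⌋₊).filter Q).card : ℝ) := by
  unfold ct
  rw [← Set.ncard_coe_finset]
  congr 2
  ext n
  simp only [coe_filter, mem_Icc, Set.mem_ofPred_eq, h]
  constructor
  · rintro ⟨h1, h2, h3⟩
    exact ⟨⟨h2, Nat.le_floor h3⟩, h1⟩
  · rintro ⟨⟨h1, h2⟩, h3⟩
    exact ⟨h3, h1, (Nat.le_floor_iff' (by omega)).1 h2⟩

open Classical in
/-- Decomposition in residue classes. -/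
theorem ct_sum (S : Set ℕ) (K : ℕ) (P : ℕ → Prop) (hP : ∀ n, P n ↔ P (n % 2 ^ K)) (X : ℝ) :
    ct {n | n ∈ S ∧ P n} X = ∑ c ∈ (range (2 ^ K)).filter P, ct (cls S K 0 c) X := by
  obtain ⟨Q, hQ⟩ : ∃ Q : ℕ → Prop, ∀ n, n ∈ {n | n ∈ S ∧ P n} ↔ Q n := ⟨_, fun _ => Iff.rfl⟩
  have hQ' : ∀ n, Q n ↔ n ∈ S ∧ P n := fun n => (hQ n).symm
  rw [ct_card _ Q hQ]
  have h1 := card_eq_sum_card_fiberwise (f := fun n => n % 2 ^ K)
    (s := (Icc 1 ⌊X⌋₊).filter Q)
    (t := (range (2 ^ K)).filter P) (by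
      intro n hn
      rw [coe_filter, Set.mem_ofPred_eq] at hn
      rw [coe_filter, Set.mem_ofPred_eq, mem_range]
      exact ⟨Nat.mod_lt _ (by positivity), (hP n).1 ((hQ' n).1 hn.2).2⟩)
  rw [h1]
  push_cast
  refine sum_congr rfl fun c hc => ?_
  rw [mem_filter, mem_range] at hc
  rw [ct_card (cls S K 0 c) (fun n => n ∈ S ∧ n ≡ c [MOD 2 ^ K * 3 ^ 0]) (fun n => Iff.rfl)]
  congr 2
  ext n
  simp only [mem_filter, hQ', pow_zero, mul_one]
  constructor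
  · rintro ⟨⟨h2, h3, -⟩, h4⟩
    refine ⟨h2, h3, ?_⟩
    unfold Nat.ModEq
    rw [h4, Nat.mod_eq_of_lt hc.1]
  · rintro ⟨h2, h3, h4⟩
    unfold Nat.ModEq at h4
    rw [Nat.mod_eq_of_lt hc.1] at h4
    refine ⟨⟨h2, h3, ?_⟩, h4⟩
    rw [hP n, h4]
    exact hc.2

theorem odds_mod (K n : ℕ) : odds K (n % 2 ^ K) = odds K n := by
  have h : ∀ q r : ℕ, odds K (r + 2 ^ K * q) = odds K r := by
    intro q
    induction q with
    | zero => intro r; simp
    | succ q ih =>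
      intro r
      have : r + 2 ^ K * (q + 1) = (r + 2 ^ K * q) + 2 ^ K := by ring
      rw [this, XT.odds_periodic, ih]
  conv_rhs => rw [← Nat.mod_add_div n (2 ^ K)]
  rw [h]

/-- Density of the set of the elements of `S` with a high product. -/
theorem dens_high (S : Set ℕ) (δ : ℝ) (hcls : ∀ j c, ND.HasDensN (cls S j 0 c) (δ / (2 ^ j * 3 ^ 0)))
    (K : ℕ) (lam : ℝ) :
    ND.HasDensN {n | n ∈ S ∧ High K lam (odds K n)} (δ * walk K lam) := by
  classical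
  rw [hasDensN_iff]
  have hP : ∀ n, High K lam (odds K n) ↔ High K lam (odds K (n % 2 ^ K)) := by
    intro n
    rw [odds_mod]
  have h1 : ∀ X : ℝ, ct {n | n ∈ S ∧ High K lam (odds K n)} X / X =
      ∑ c ∈ (range (2 ^ K)).filter (fun n => High K lam (odds K n)), ct (cls S K 0 c) X / X := by
    intro X
    rw [ct_sum S K (fun n => High K lam (odds K n)) hP X, sum_div]
  refine Tendsto.congr (fun X => (h1 X).symm) ?_
  have h2 : δ * walk K lam =
      ∑ c ∈ (range (2 ^ K)).filter (fun n => High K lam (odds K n)), δ / (2 ^ K * 3 ^ 0) := by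
    rw [sum_const, XT.card_odds K (fun A => High K lam A), nsmul_eq_mul]
    unfold walk
    rw [pow_zero, mul_one]
    ring
  rw [h2]
  exact tendsto_finsetSum _ fun c _ => hcls K c

/-- **The limit law** on `S`, general form. -/
theorem law_on (S : Set ℕ) (δ : ℝ) (hcls : ∀ j c, ND.HasDensN (cls S j 0 c) (δ / (2 ^ j * 3 ^ 0)))
    (lam : ℝ) (hlam : 1 ≤ lam) (P : ℕ → Prop)
    (hlow : ∀ K, ∃ n₀ : ℕ, ∀ n, n₀ ≤ n → n ∈ S → High K lam (odds K n) → P n)
    (hup : ∀ y : ℝ, ∃ n₀ : ℕ, ∀ n, n₀ ≤ n → n ∈ S → P n → ¬ FallsBefore n y lam) :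
    ND.HasDensN {n | n ∈ S ∧ P n} (δ * F lam) := by
  classical
  rw [hasDensN_iff, Metric.tendsto_atTop]
  intro ε hε
  obtain ⟨y, K₀, hK₀⟩ := XT.block_upper lam (ε / 8) hlam (by positivity)
  have h1 := (XT.walk_tendsto lam).eventually
    (Metric.ball_mem_nhds (F lam) (by positivity : 0 < ε / (8 * (|δ| + 1))))
  obtain ⟨K, hK1, hK2⟩ := (h1.and (eventually_ge_atTop K₀)).exists
  have hK1' : |walk K lam - F lam| < ε / (8 * (|δ| + 1)) := by
    rw [← Real.dist_eq]; exact hK1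
  obtain ⟨L₀, hL₀⟩ := hK₀ K hK2
  obtain ⟨n₁, hn₁⟩ := hlow K
  obtain ⟨n₂, hn₂⟩ := hup y
  set L₁ := max L₀ n₂ with hL₁
  obtain ⟨R, hR⟩ : ∃ R : ℕ → Prop, ∀ n, R n ↔ (n ∈ S ∧ P n) ∧ ¬ High K lam (odds K n) :=
    ⟨_, fun _ => Iff.rfl⟩
  have hblock : ∀ L, L₁ ≤ L → (((Ico (2 ^ L) (2 ^ (L + 1))).filter R).card : ℝ) ≤
      ε / 8 * 2 ^ L := by
    intro L hL
    refine le_trans ?_ (hL₀ L (le_trans (le_max_left _ _) hL))
    rw [← Set.ncard_coe_finset]
    have h2 : (((Ico (2 ^ L) (2 ^ (L + 1))).filter R : Finset ℕ) : Set ℕ) ⊆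
        {n : ℕ | 2 ^ L ≤ n ∧ n < 2 ^ (L + 1) ∧ ¬ FallsBefore n y lam ∧
          ¬ High K lam (odds K n)} := by
      intro n hn
      simp only [coe_filter, mem_Ico, Set.mem_ofPred_eq, hR] at hn
      refine ⟨hn.1.1, hn.1.2, hn₂ n ?_ hn.2.1.1 hn.2.1.2, hn.2.2⟩
      have h3 : L < 2 ^ L := Nat.lt_two_pow_self
      have h4 : n₂ ≤ L := le_trans (le_max_right _ _) hL
      omega
    exact_mod_cast Set.ncard_le_ncard h2 ((Set.finite_Iio (2 ^ (L + 1))).subset fun n hn => hn.2.1)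
  have hsum := XT.sum_blocks R (ε / 8) (by positivity) L₁ hblock
  -- the density of the high set
  have hhigh := dens_high S δ hcls K lam
  rw [hasDensN_iff, Metric.tendsto_atTop] at hhigh
  obtain ⟨X₁, hX₁⟩ := hhigh (ε / 8) (by positivity)
  set H := {n | n ∈ S ∧ High K lam (odds K n)} with hH
  set G := {n | n ∈ S ∧ P n} with hG
  obtain ⟨gq, hgq⟩ : ∃ gq : ℕ → Prop, ∀ n, n ∈ G ↔ gq n := ⟨_, fun _ => Iff.rfl⟩
  obtain ⟨hq, hhq⟩ : ∃ hq : ℕ → Prop, ∀ n, n ∈ H ↔ hq n := ⟨_, fun _ => Iff.rfl⟩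
  -- comparison
  have hcmp1 : ∀ X : ℝ, 0 ≤ X → ct G X ≤ ct H X + (2 ^ L₁ + ε / 4 * (X + 1)) := by
    intro X hX
    have h2 : ct G X ≤ ct H X + (((range (⌊X⌋₊ + 1)).filter R).card : ℝ) := by
      rw [ct_card G gq hgq, ct_card H hq hhq]
      have : ((Icc 1 ⌊X⌋₊).filter gq) ⊆
          ((Icc 1 ⌊X⌋₊).filter hq) ∪ ((range (⌊X⌋₊ + 1)).filter R) := by
        intro n hn
        rw [mem_filter, mem_Icc] at hn
        rw [mem_union, mem_filter, mem_filter, mem_Icc, mem_range]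
        have hn2 : n ∈ S ∧ P n := (hgq n).2 hn.2
        by_cases h : High K lam (odds K n)
        · left; exact ⟨hn.1, (hhq n).1 ⟨hn2.1, h⟩⟩
        · right; exact ⟨by omega, (hR n).2 ⟨hn2, h⟩⟩
      exact_mod_cast (card_le_card this).trans (card_union_le _ _)
    have h3 := hsum (⌊X⌋₊ + 1)
    have h4 : ((⌊X⌋₊ + 1 : ℕ) : ℝ) ≤ X + 1 := by
      push_cast
      have := Nat.floor_le hX
      linarith
    have h5 : 2 * (ε / 8) * ((⌊X⌋₊ + 1 : ℕ) : ℝ) ≤ ε / 4 * (X + 1) := by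
      have := mul_le_mul_of_nonneg_left h4 (by positivity : 0 ≤ ε / 4)
      linarith
    linarith
  have hcmp2 : ∀ X : ℝ, ct H X ≤ ct G X + n₁ := by
    intro X
    rw [ct_card G gq hgq, ct_card H hq hhq]
    have : ((Icc 1 ⌊X⌋₊).filter hq) ⊆
        ((Icc 1 ⌊X⌋₊).filter gq) ∪ range n₁ := by
      intro n hn
      rw [mem_filter] at hn
      rw [mem_union, mem_filter, mem_range]
      have hn2 : n ∈ S ∧ High K lam (odds K n) := (hhq n).2 hn.2
      by_cases h : n < n₁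
      · right; exact h
      · left; exact ⟨hn.1, (hgq n).1 ⟨hn2.1, hn₁ n (by omega) hn2.1 hn2.2⟩⟩
    have h2 := (card_le_card this).trans (card_union_le _ _)
    rw [card_range] at h2
    exact_mod_cast h2
  refine ⟨max (max 1 X₁) (4 * (2 ^ L₁ + n₁ + ε + 1) / ε), fun X hX => ?_⟩
  have hX1 : 1 ≤ X := (le_max_left _ _).trans ((le_max_left _ _).trans hX)
  have hX2 : X₁ ≤ X := (le_max_right _ _).trans ((le_max_left _ _).trans hX)
  have hX3 : 4 * (2 ^ L₁ + n₁ + ε + 1) / ε ≤ X := (le_max_right _ _).trans hX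
  have hX0 : 0 < X := by linarith
  rw [div_le_iff₀ hε] at hX3
  have a1 := hcmp1 X hX0.le
  have a2 := hcmp2 X
  have a3 := hX₁ X hX2
  rw [Real.dist_eq] at a3
  have a4 : |δ * walk K lam - δ * F lam| ≤ ε / 8 := by
    rw [← mul_sub, abs_mul]
    have h2 : |δ| * |walk K lam - F lam| ≤ (|δ| + 1) * (ε / (8 * (|δ| + 1))) :=
      mul_le_mul (by linarith) hK1'.le (abs_nonneg _) (by positivity)
    have h3 : (|δ| + 1) * (ε / (8 * (|δ| + 1))) = ε / 8 := by
      have : |δ| + 1 ≠ 0 := by positivity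
      field_simp
    linarith
  have a5 : |ct G X / X - ct H X / X| ≤ ε / 4 + (2 ^ L₁ + n₁ + ε) / X := by
    rw [← sub_div, abs_div, abs_of_pos hX0, div_le_iff₀ hX0, add_mul, div_mul_cancel₀ _ hX0.ne']
    have h2 : (0 : ℝ) < 2 ^ L₁ := by positivity
    have h3 : (0 : ℝ) ≤ n₁ := Nat.cast_nonneg _
    rw [abs_le]
    constructor <;> nlinarith
  have a6 : (2 ^ L₁ + n₁ + ε) / X ≤ ε / 4 := by
    rw [div_le_iff₀ hX0]
    linarith
  rw [Real.dist_eq]
  have e : ct G X / X - δ * F lam = (ct G X / X - ct H X / X) + (ct H X / X - δ * walk K lam) +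
      (δ * walk K lam - δ * F lam) := by ring
  rw [e]
  calc |(ct G X / X - ct H X / X) + (ct H X / X - δ * walk K lam) +
        (δ * walk K lam - δ * F lam)|
      ≤ |(ct G X / X - ct H X / X) + (ct H X / X - δ * walk K lam)| +
        |δ * walk K lam - δ * F lam| := abs_add_le _ _
    _ ≤ |ct G X / X - ct H X / X| + |ct H X / X - δ * walk K lam| +
        |δ * walk K lam - δ * F lam| := by
        have := abs_add_le (ct G X / X - ct H X / X) (ct H X / X - δ * walk K lam)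
        linarith
    _ < ε := by linarith

end Pool.Agent.Lib.MP_0a5adf_nt.H7
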