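import Pool.Agent.Lib.MP_0a5adf_nt.H7.LawOn
import Pool.Agent.Lib.MP_0a5adf_nt.TP.All
import Pool.Agent.Lib.MP_edb5be_nt.PD.H26.Asm
import Pool.Agent.Lib.MP_edb5be_nt.PD.H63.AllS

/-!
MP_0a5adf_nt: the unconditional limit law of `t(n) / n`.
-/

set_option autoImplicit false

namespace Pool.Agent.Lib.MP_0a5adf_nt.H7

open Finset Filter Topology Pool.Agent.Lib.MP_0a5adf_nt.TP Pool.Agent.Lib.MP_edb5be_nt
open Pool.Agent.Lib.MP_edb5be_nt.EQ
open Pool.Agent.Lib.MP_0a5adf_nt.XT (High odds walk F FallsBefore)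

theorem XT_eq : XT.T = T := rfl

/-- The trajectory of `n` reaches `lam * n`. -/
def Reaches (lam : ℝ) (n : ℕ) : Prop := ∃ k : ℕ, lam * n ≤ (T^[k] n : ℝ)

/-- From real bounds to `n < N`. -/
theorem dn_of_hasDensN {B : Set ℕ} {D : ℝ} (h : ND.HasDensN B D) : Dn (fun n => n ∈ B) D := by
  have h1 : Tendsto (fun N : ℕ => ct B (N : ℝ) / (N : ℝ)) atTop (nhds D) :=
    h.comp tendsto_natCast_atTop_atTop
  have key : ∀ N : ℕ, |(({n : ℕ | n < N ∧ n ∈ B}.ncard : ℝ)) - ct B (N : ℝ)| ≤ 1 := by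
    intro N
    unfold ct
    have f1 : {n : ℕ | n ∈ B ∧ 1 ≤ n ∧ (n : ℝ) ≤ N}.Finite := ND.H75.finA B N
    have f2 : {n : ℕ | n < N ∧ n ∈ B}.Finite := fin_lt _ N
    have a1 : {n : ℕ | n < N ∧ n ∈ B} ⊆ {n : ℕ | n ∈ B ∧ 1 ≤ n ∧ (n : ℝ) ≤ N} ∪ {0} := by
      rintro n ⟨hn, hA⟩
      rcases Nat.eq_zero_or_pos n with rfl | h0
      · right; rfl
      · left; exact ⟨hA, h0, by exact_mod_cast hn.le⟩
    have a2 : {n : ℕ | n ∈ B ∧ 1 ≤ n ∧ (n : ℝ) ≤ N} ⊆ {n : ℕ | n < N ∧ n ∈ B} ∪ {N} := by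
      rintro n ⟨hA, h0, hn⟩
      have hn' : n ≤ N := by exact_mod_cast hn
      rcases Nat.lt_or_ge n N with h | h
      · left; exact ⟨h, hA⟩
      · right; exact le_antisymm hn' h
    have b1 := (Set.ncard_le_ncard a1 (f1.union (Set.finite_singleton 0))).trans
      (Set.ncard_union_le _ _)
    have b2 := (Set.ncard_le_ncard a2 (f2.union (Set.finite_singleton N))).trans
      (Set.ncard_union_le _ _)
    rw [Set.ncard_singleton] at b1 b2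
    have b1' : ({n : ℕ | n < N ∧ n ∈ B}.ncard : ℝ) ≤
        ({n : ℕ | n ∈ B ∧ 1 ≤ n ∧ (n : ℝ) ≤ N}.ncard : ℝ) + 1 := by exact_mod_cast b1
    have b2' : ({n : ℕ | n ∈ B ∧ 1 ≤ n ∧ (n : ℝ) ≤ N}.ncard : ℝ) ≤
        ({n : ℕ | n < N ∧ n ∈ B}.ncard : ℝ) + 1 := by exact_mod_cast b2
    rw [abs_le]
    constructor <;> linarith
  have h2 : Tendsto (fun N : ℕ => (({n : ℕ | n < N ∧ n ∈ B}.ncard : ℝ) -
      ct B (N : ℝ)) / (N : ℝ)) atTop (nhds 0) := by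
    refine squeeze_zero_norm (a := fun N : ℕ => 1 / (N : ℝ)) (fun N => ?_)
      tendsto_one_div_atTop_nhds_zero_nat
    rw [norm_div, Real.norm_eq_abs, Real.norm_eq_abs, Nat.abs_cast]
    exact div_le_div_of_nonneg_right (key N) (Nat.cast_nonneg N)
  have h3 := h2.add h1
  rw [zero_add] at h3
  refine h3.congr fun N => ?_
  ring

/-- On a set of numbers with bounded trajectories: a trajectory that falls below `y` before reaching
`lam * n` never reaches `lam * n`, for large `n`. -/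
theorem exists_bound_on (y lam : ℝ) (hlam : 1 ≤ lam) :
    ∃ n₀ : ℕ, ∀ n : ℕ, n₀ ≤ n → Bdd n → Reaches lam n → ¬ FallsBefore n y lam := by
  classical
  have hR : ∀ m : ℕ, ∃ R : ℕ, Bdd m → ∀ k, T^[k] m ≤ R := by
    intro m
    by_cases hm : Bdd m
    · obtain ⟨R, hR⟩ := hm
      exact ⟨R, fun _ => hR⟩
    · exact ⟨0, fun h => absurd h hm⟩
  choose R hR using hR
  obtain ⟨m₀, hm₀⟩ := exists_nat_gt y
  refine ⟨∑ m ∈ range (m₀ + 1), R m + 1, fun n hn hb ⟨k, hk⟩ ⟨k₀, h1, h2⟩ => ?_⟩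
  rw [XT_eq] at h1 h2
  rcases Nat.lt_or_ge k k₀ with h3 | h3
  · have := h2 k h3
    linarith
  · obtain ⟨e, rfl⟩ := Nat.exists_eq_add_of_le h3
    have hbm : Bdd (T^[k₀] n) := (bdd_iter k₀ n).1 hb
    set m := T^[k₀] n with hm
    have h4 : m < m₀ + 1 := by
      have : (m : ℝ) < m₀ := lt_trans h1 hm₀
      have : m < m₀ := by exact_mod_cast this
      omega
    have h5 : T^[k₀ + e] n ≤ R m := by
      rw [add_comm, Function.iterate_add_apply]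
      exact hR m hbm e
    have h6 : R m ≤ ∑ m ∈ range (m₀ + 1), R m :=
      single_le_sum (f := R) (fun _ _ => Nat.zero_le _) (mem_range.2 h4)
    have h7 : T^[k₀ + e] n < n := by omega
    have h8 : (T^[k₀ + e] n : ℝ) < n := by exact_mod_cast h7
    have h9 : (0 : ℝ) ≤ n := Nat.cast_nonneg n
    nlinarith

/-- The class of `a` modulo `3 ^ k` in a set that is equidistributed modulo `2 ^ j * 3 ^ k`. -/
theorem cls_class {S : Set ℕ} {D : ℝ}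
    (h : ∀ j k c : ℕ, ND.HasDensN (cls S j k c) (D / (2 ^ j * 3 ^ k))) (k a j c : ℕ) :
    ND.HasDensN (cls {n | n ∈ S ∧ n ≡ a [MOD 3 ^ k]} j 0 c) (D / 3 ^ k / (2 ^ j * 3 ^ 0)) := by
  have hco : Nat.Coprime (2 ^ j) (3 ^ k) := Nat.Coprime.pow _ _ (by norm_num)
  obtain ⟨z, hz1, hz2⟩ := Nat.chineseRemainder hco c a
  have e : cls {n | n ∈ S ∧ n ≡ a [MOD 3 ^ k]} j 0 c = cls S j k z := by
    ext n
    unfold cls
    rw [Set.mem_ofPred_eq, Set.mem_ofPred_eq, Set.mem_ofPred_eq, pow_zero, mul_one,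
      ← Nat.modEq_and_modEq_iff_modEq_mul hco]
    constructor
    · rintro ⟨⟨h1, h2⟩, h3⟩
      exact ⟨h1, h3.trans hz1.symm, h2.trans hz2.symm⟩
    · rintro ⟨h1, h2, h3⟩
      exact ⟨⟨h1, h3.trans hz2⟩, h2.trans hz1⟩
  have e2 : D / 3 ^ k / (2 ^ j * 3 ^ 0) = D / (2 ^ j * 3 ^ k) := by
    rw [pow_zero, mul_one, div_div, mul_comm]
  rw [e, e2]
  exact h j k z

theorem invA_of (S : Set ℕ) (hS : ∀ n, 1 ≤ n → (n ∈ S ↔ T n ∈ S)) : ND.InvA true S 0 := by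
  intro n hn
  rw [← T_eq]
  exact hS n (by simpa using hn)

/-- The laws on an invariant set. -/
theorem law_inv (S : Set ℕ) (hS : ∀ n, 1 ≤ n → (n ∈ S ↔ T n ∈ S)) :
    ∃ D : ℝ, 0 ≤ D ∧ D ≤ 1 ∧ ND.HasDensN S D ∧
      (∀ j k c : ℕ, ND.HasDensN (cls S j k c) (D / (2 ^ j * 3 ^ k))) ∧
      ∀ (k a : ℕ) (lam : ℝ), 1 ≤ lam →
        (∀ g : ℕ → ℝ, Tendsto g atTop atTop → Tendsto (fun n : ℕ => g n / n) atTop (nhds 0) →
          ND.HasDensN {n | (n ∈ S ∧ n ≡ a [MOD 3 ^ k]) ∧ ¬ FallsBefore n (g n) lam}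
            (D / 3 ^ k * F lam)) ∧
        ((∀ n ∈ S, Bdd n) →
          ND.HasDensN {n | (n ∈ S ∧ n ≡ a [MOD 3 ^ k]) ∧ Reaches lam n} (D / 3 ^ k * F lam)) := by
  obtain ⟨D, hD0, hD1, hD, hcl⟩ := equi true S 0 (invA_of S hS)
  refine ⟨D, hD0, hD1, hD, hcl, fun k a lam hlam => ⟨fun g hg hg2 => ?_, fun hb => ?_⟩⟩
  · refine law_on {n | n ∈ S ∧ n ≡ a [MOD 3 ^ k]} (D / 3 ^ k) (cls_class hcl k a) lam hlam
      (fun n => ¬ FallsBefore n (g n) lam) ?_ ?_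
    · intro K
      have h2 : ∀ᶠ n : ℕ in atTop, g n / n < 1 / 2 ^ K :=
        hg2.eventually_lt_const (by positivity)
      obtain ⟨n₀, hn₀⟩ := eventually_atTop.1 h2
      refine ⟨n₀ + 1, fun n hn _ h => ?_⟩
      rintro ⟨k, hk1, hk2⟩
      obtain ⟨j, hj, hj2⟩ := XT.reach_of_high h
      have hkj : k ≤ j := by
        by_contra hcon
        have := hk2 j (by omega)
        linarith
      have hn0 : (0 : ℝ) < n := by exact_mod_cast (by omega : 0 < n)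
      have h3 := hn₀ n (by omega)
      rw [div_lt_div_iff₀ hn0 (by positivity)] at h3
      have h4 := (XT.bounds k n).1
      have h5 : (3 : ℝ) ^ (odds k n).card * n ≤ 2 ^ k * XT.T^[k] n := by exact_mod_cast h4
      have h6 : (1 : ℝ) ≤ 3 ^ (odds k n).card := one_le_pow₀ (by norm_num)
      have h7 : (2 : ℝ) ^ k ≤ 2 ^ K := pow_le_pow_right₀ (by norm_num) (by omega)
      have h8 : (n : ℝ) ≤ 2 ^ K * XT.T^[k] n := by
        calc (n : ℝ) = 1 * n := (one_mul _).symm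
          _ ≤ (3 : ℝ) ^ (odds k n).card * n := mul_le_mul_of_nonneg_right h6 hn0.le
          _ ≤ 2 ^ k * XT.T^[k] n := h5
          _ ≤ _ := mul_le_mul_of_nonneg_right h7 (Nat.cast_nonneg _)
      have h9 : (0 : ℝ) < 2 ^ K := by positivity
      nlinarith
    · intro y
      obtain ⟨n₀, hn₀⟩ := eventually_atTop.1 (hg.eventually_ge_atTop y)
      refine ⟨n₀, fun n hn _ h hf => h ?_⟩
      obtain ⟨k, hk1, hk2⟩ := hf
      exact ⟨k, hk1.trans_le (hn₀ n hn), hk2⟩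
  · refine law_on {n | n ∈ S ∧ n ≡ a [MOD 3 ^ k]} (D / 3 ^ k) (cls_class hcl k a) lam hlam
      (Reaches lam) ?_ ?_
    · intro K
      refine ⟨0, fun n _ _ h => ?_⟩
      obtain ⟨j, -, hj⟩ := XT.reach_of_high h
      exact ⟨j, hj⟩
    · intro y
      obtain ⟨n₀, hn₀⟩ := exists_bound_on y lam hlam
      exact ⟨n₀, fun n hn hnS hr => hn₀ n hn (hb n hnS.1) hr⟩

/-- The set of integers attached to `S`. -/
def SZ (S : Set ℕ) : Set ℤ := {x : ℤ | 0 < x ∧ x.toNat ∈ S}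

theorem SZ_inv (S : Set ℕ) (hS : ∀ n, 1 ≤ n → (n ∈ S ↔ T n ∈ S)) (x : ℤ) :
    x ∈ SZ S ↔ EX.Tc x ∈ SZ S := by
  rcases lt_or_ge 0 x with hx | hx
  · obtain ⟨n, rfl⟩ : ∃ n : ℕ, x = (n : ℤ) := ⟨x.toNat, (Int.toNat_of_nonneg hx.le).symm⟩
    have hn : 1 ≤ n := by omega
    rw [Tc_cast]
    unfold SZ
    rw [Set.mem_ofPred_eq, Set.mem_ofPred_eq, Int.toNat_natCast, Int.toNat_natCast]
    have hT : 1 ≤ T n := by
      unfold T
      split_ifs with h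
      · omega
      · omega
    constructor
    · rintro ⟨-, h⟩
      exact ⟨by exact_mod_cast hT, (hS n hn).1 h⟩
    · rintro ⟨-, h⟩
      exact ⟨hx, (hS n hn).2 h⟩
  · have h1 : EX.Tc x ≤ 0 := by
      unfold EX.Tc
      split_ifs <;> omega
    constructor
    · intro h; exact absurd h.1 (not_lt.2 hx)
    · intro h; exact absurd h.1 (not_lt.2 h1)

theorem cnt_SZ (S : Set ℕ) (X : ℝ) : ND.cnt true (SZ S) X = ct S X := by
  unfold ND.cnt ct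
  congr 1
  have : {x : ℤ | x ∈ SZ S ∧ 0 < sg true * x ∧ ((sg true * x : ℤ) : ℝ) ≤ X} =
      (fun n : ℕ => (n : ℤ)) '' {n : ℕ | n ∈ S ∧ 1 ≤ n ∧ (n : ℝ) ≤ X} := by
    ext x
    simp only [sg, Set.mem_ofPred_eq, Set.mem_image, if_true, one_mul, SZ]
    constructor
    · rintro ⟨⟨a0, a⟩, b, c⟩
      refine ⟨x.toNat, ⟨a, by omega, ?_⟩, Int.toNat_of_nonneg b.le⟩
      have h1 : ((x.toNat : ℤ) : ℝ) = (x : ℝ) := by rw [Int.toNat_of_nonneg b.le]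
      rw [← Int.cast_natCast, h1]
      exact c
    · rintro ⟨n, ⟨a, b, c⟩, rfl⟩
      refine ⟨⟨by omega, by simpa using a⟩, by omega, ?_⟩
      exact_mod_cast c
  rw [this, Set.ncard_image_of_injective _ Nat.cast_injective]

theorem hasDens_SZ {S : Set ℕ} {D : ℝ} : ND.HasDens true (SZ S) D ↔ ND.HasDensN S D := by
  unfold ND.HasDens
  rw [hasDensN_iff]
  simp only [cnt_SZ]

theorem godT : PD.GodStatement := by
  obtain ⟨c, K, hc, -, H⟩ := PD.finalT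
  refine ⟨c, hc, fun d x D hx hD => ?_⟩
  obtain ⟨D', hD', h⟩ := (H d).2 (PD.GO x) x (ND.H26.go_inv x) ⟨0, 0, rfl⟩ hx
  rwa [tendsto_nhds_unique hD h]

/-- Bounds for the densities. -/
theorem dens_bounds : ∃ c : ℝ, 0 < c ∧ ∀ (S : Set ℕ) (D : ℝ),
    (∀ n, 1 ≤ n → (n ∈ S ↔ T n ∈ S)) → ND.HasDensN S D →
      (∀ n, 1 ≤ n → n ∈ S → c / n ≤ D) ∧ (∀ n, 1 ≤ n → n ∉ S → D ≤ 1 - c / n) := by
  obtain ⟨c₁, K, hc₁, -, H⟩ := PD.finalT
  obtain ⟨c₂, hc₂, H₂⟩ := PD.H63.allS ND.zdenT godT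
  have e2 : ∀ n : ℕ, |(((n : ℕ) : ℤ) : ℝ)| = (n : ℝ) := fun n => by
    rw [Int.cast_natCast, abs_of_nonneg (Nat.cast_nonneg n)]
  refine ⟨min c₁ c₂, lt_min hc₁ hc₂, fun S D hS hD => ⟨fun n h1 hn => ?_, fun n h1 hn => ?_⟩⟩
  · obtain ⟨D', hD', h⟩ := (H true).2 (SZ S) (n : ℤ) (SZ_inv S hS)
      ⟨by exact_mod_cast h1, by simpa using hn⟩ (by simp only [sg, if_true, one_mul]; omega)
    have e := hasDensN_unique hD (hasDens_SZ.1 h)
    rw [e]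
    rw [e2] at hD'
    exact le_trans (div_le_div_of_nonneg_right (min_le_left _ _) (Nat.cast_nonneg n)) hD'
  · have h := H₂ true (SZ S) D (n : ℤ) (SZ_inv S hS) (hasDens_SZ.2 hD)
      (by simp only [sg, if_true, one_mul]; omega) (fun h => hn (by simpa using h.2))
    rw [e2] at h
    have h3 : min c₁ c₂ / (n : ℝ) ≤ c₂ / n :=
      div_le_div_of_nonneg_right (min_le_right _ _) (Nat.cast_nonneg n)
    linarith

/-- All numbers that reach `lam * n`. -/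
theorem dn_reach {D : ℝ} (hD : Dn Bdd D) (lam E : ℝ)
    (h : Dn (fun n => Bdd n ∧ Reaches lam n) E) : Dn (Reaches lam) (1 - D + E) := by
  have key : ∀ N : ℕ, ({n : ℕ | n < N ∧ Reaches lam n}.ncard : ℝ) =
      (N : ℝ) - ({n : ℕ | n < N ∧ Bdd n}.ncard : ℝ) +
        ({n : ℕ | n < N ∧ (Bdd n ∧ Reaches lam n)}.ncard : ℝ) := by
    intro N
    have hun : ∀ n, ¬ Bdd n → Reaches lam n := by
      intro n hn
      by_contra hcon
      apply hn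
      refine ⟨⌊lam * n⌋₊, fun k => ?_⟩
      refine Nat.le_floor ?_
      by_contra hlt
      exact hcon ⟨k, (not_le.1 hlt).le⟩
    have e1 : {n : ℕ | n < N ∧ Reaches lam n} = {n : ℕ | n < N ∧ ¬ Bdd n} ∪
        {n : ℕ | n < N ∧ (Bdd n ∧ Reaches lam n)} := by
      ext n
      simp only [Set.mem_ofPred_eq, Set.mem_union]
      constructor
      · rintro ⟨h1, h2⟩
        by_cases hb : Bdd n
        · right; exact ⟨h1, hb, h2⟩
        · left; exact ⟨h1, hb⟩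
      · rintro (⟨h1, h2⟩ | ⟨h1, h2, h3⟩)
        · exact ⟨h1, hun n h2⟩
        · exact ⟨h1, h3⟩
    have e2 : (Finset.range N : Set ℕ) = {n : ℕ | n < N ∧ Bdd n} ∪ {n : ℕ | n < N ∧ ¬ Bdd n} := by
      ext n
      simp only [Finset.coe_range, Set.mem_Iio, Set.mem_ofPred_eq, Set.mem_union]
      tauto
    have f1 := fin_lt (fun n => ¬ Bdd n) N
    have f2 := fin_lt (fun n => Bdd n ∧ Reaches lam n) N
    have f3 := fin_lt Bdd N
    have c1 : {n : ℕ | n < N ∧ Reaches lam n}.ncard = {n : ℕ | n < N ∧ ¬ Bdd n}.ncard +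
        {n : ℕ | n < N ∧ (Bdd n ∧ Reaches lam n)}.ncard := by
      rw [e1]
      refine Set.ncard_union_eq ?_ f1 f2
      rw [Set.disjoint_left]
      rintro n ⟨-, h1⟩ ⟨-, h2, -⟩
      exact h1 h2
    have c2 : N = {n : ℕ | n < N ∧ Bdd n}.ncard + {n : ℕ | n < N ∧ ¬ Bdd n}.ncard := by
      have h1 : (Finset.range N : Set ℕ).ncard = N := by
        rw [Set.ncard_coe_finset, Finset.card_range]
      rw [← Set.ncard_union_eq _ f3 f1, ← e2, h1]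
      rw [Set.disjoint_left]
      rintro n ⟨-, h1⟩ ⟨-, h2⟩
      exact h2 h1
    have c1' : ({n : ℕ | n < N ∧ Reaches lam n}.ncard : ℝ) =
        ({n : ℕ | n < N ∧ ¬ Bdd n}.ncard : ℝ) +
        ({n : ℕ | n < N ∧ (Bdd n ∧ Reaches lam n)}.ncard : ℝ) := by exact_mod_cast c1
    have c2' : (N : ℝ) = ({n : ℕ | n < N ∧ Bdd n}.ncard : ℝ) +
        ({n : ℕ | n < N ∧ ¬ Bdd n}.ncard : ℝ) := by exact_mod_cast c2
    linarith
  unfold Dn at hD h ⊢
  have h1 : Tendsto (fun N : ℕ => 1 - ({n : ℕ | n < N ∧ Bdd n}.ncard : ℝ) / N +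
      ({n : ℕ | n < N ∧ (Bdd n ∧ Reaches lam n)}.ncard : ℝ) / N) atTop (nhds (1 - D + E)) :=
    (hD.const_sub 1).add h
  refine h1.congr' ?_
  filter_upwards [eventually_gt_atTop 0] with N hN
  have hN' : (0 : ℝ) < N := by exact_mod_cast hN
  rw [key N]
  field_simp

/-- **Limit law.** -/
theorem limit_law :
    ∃ c : ℝ, 0 < c ∧
      (∀ S : Set ℕ, (∀ n, 1 ≤ n → (n ∈ S ↔ T n ∈ S)) →
        ∃ D : ℝ, (∀ n, 1 ≤ n → n ∈ S → c / n ≤ D) ∧ (∀ n, 1 ≤ n → n ∉ S → D ≤ 1 - c / n) ∧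
          (∀ j k a : ℕ, Dn (fun n => n ∈ S ∧ n ≡ a [MOD 2 ^ j * 3 ^ k]) (D / (2 ^ j * 3 ^ k))) ∧
          ∀ (k a : ℕ) (lam : ℝ), 1 ≤ lam →
            (∀ g : ℕ → ℝ, Tendsto g atTop atTop → Tendsto (fun n : ℕ => g n / n) atTop (nhds 0) →
              Dn (fun n => (n ∈ S ∧ n ≡ a [MOD 3 ^ k]) ∧ ¬ FallsBefore n (g n) lam)
                (D / 3 ^ k * F lam)) ∧
            ((∀ n ∈ S, Bdd n) →
              Dn (fun n => (n ∈ S ∧ n ≡ a [MOD 3 ^ k]) ∧ Reaches lam n) (D / 3 ^ k * F lam))) ∧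
      ∃ D : ℝ, 0 < D ∧ Dn Bdd D ∧
        (∀ lam : ℝ, 1 ≤ lam → Dn (Reaches lam) (1 - D + D * F lam)) ∧
        (∀ g : ℕ → ℝ, Tendsto g atTop atTop → Dn (Low g) D) ∧
        (D = 1 ↔ ∀ n, Bdd n) := by
  obtain ⟨c, hc, hbd⟩ := dens_bounds
  obtain ⟨D, c₂, hc₂, hD0, hD1, hD, hg, hgap, hiff⟩ :=
    posprop (TP.finalT true) ND.zdenT godT (PD.H63.allS ND.zdenT godT)
  refine ⟨c, hc, ?_, D, hD0, hD, ?_, hg, hiff⟩
  · intro S hS
    obtain ⟨D', h0, h1, h2, h3, h4⟩ := law_inv S hS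
    obtain ⟨h5, h6⟩ := hbd S D' hS h2
    refine ⟨D', h5, h6, fun j k a => dn_of_hasDensN (h3 j k a), fun k a lam hlam => ?_⟩
    exact ⟨fun g hg1 hg2 => dn_of_hasDensN ((h4 k a lam hlam).1 g hg1 hg2),
      fun hb => dn_of_hasDensN ((h4 k a lam hlam).2 hb)⟩
  · intro lam hlam
    obtain ⟨D', h0, h1, h2, h3, h4⟩ := law_inv {n | Bdd n} (fun n _ => bdd_step n)
    have e : D = D' := tendsto_nhds_unique hD (dn_of_hasDensN h2)
    have h5 := dn_of_hasDensN ((h4 0 0 lam hlam).2 (fun n hn => hn))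
    have hpz : D' / 3 ^ 0 * F lam = D * F lam := by rw [pow_zero, div_one, e]
    rw [hpz] at h5
    refine dn_reach hD lam (D * F lam) ?_
    have e2 : (fun n => n ∈ {n | (n ∈ {n | Bdd n} ∧ n ≡ 0 [MOD 3 ^ 0]) ∧ Reaches lam n}) =
        fun n => Bdd n ∧ Reaches lam n := by
      funext n
      simp only [Set.mem_ofPred_eq, eq_iff_iff]
      constructor
      · rintro ⟨⟨h6, -⟩, h7⟩; exact ⟨h6, h7⟩
      · rintro ⟨h6, h7⟩
        refine ⟨⟨h6, ?_⟩, h7⟩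
        rw [pow_zero]
        exact Nat.modEq_one
    rw [e2] at h5
    exact h5

theorem fail_eq (L : ℕ) (y lam : ℝ) :
    {n : ℕ | 2 ^ L ≤ n ∧ n < 2 ^ (L + 1) ∧ ¬ FallsBefore n y lam} = TP.Fail true L y lam := by
  unfold TP.Fail FallsBefore
  rw [XT.T_true]

end Pool.Agent.Lib.MP_0a5adf_nt.H7
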